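import Pool.Agent.H37.CNZ.Stmts
import Pool.Agent.H46.CNQ.QU1

/-!
# Row TWI of the board `cnz`: the twist
-/

set_option autoImplicit false

namespace Pool.CND

namespace TWI

section

variable {k L G : Type} [Field k] [Field L] [Algebra k L] [Group G]

/-- a cover is finite and separable over `k(t)` -/
theorem fin_sep [Finite G] (ρ : G →* (L ≃ₐ[k] L)) (t : L) (h : IsCover ρ t) :
    Module.Finite (IntermediateField.adjoin k {t}) L ∧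
      Algebra.IsSeparable (IntermediateField.adjoin k {t}) L := by
  let H : Subgroup (L ≃ₐ[k] L) := ρ.range
  have hHf : Finite H := by
    have h2 : (Set.range ρ).Finite := Set.finite_range ρ
    have h3 : (H : Set (L ≃ₐ[k] L)) = Set.range ρ := MonoidHom.coe_range ρ
    have : (H : Set (L ≃ₐ[k] L)).Finite := by rw [h3]; exact h2
    exact this.to_subtype
  have hE : IntermediateField.fixedField H = IntermediateField.adjoin k {t} := by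
    ext z
    rw [IntermediateField.mem_fixedField_iff, ← h.fixed]
    constructor
    · intro h4 g
      exact h4 (ρ g) ⟨g, rfl⟩
    · rintro h4 f ⟨g, rfl⟩
      exact h4 g
  have hfin : Module.Finite (IntermediateField.fixedField H) L :=
    (inferInstance : FiniteDimensional (FixedPoints.subfield H L) L)
  have hsep : Algebra.IsSeparable (IntermediateField.fixedField H) L :=
    (inferInstance : Algebra.IsSeparable (FixedPoints.subfield H L) L)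
  rw [← hE]
  exact ⟨hfin, hsep⟩

theorem one_mem_ram (P : Place k L) (ρ : G →* (L ≃ₐ[k] L)) (i : ℕ) : (1 : G) ∈ ram P ρ i := by
  constructor
  · intro x _
    rw [map_one, AlgEquiv.one_apply]
  · intro u _ _
    left
    rw [map_one, AlgEquiv.one_apply]

theorem exists_of_ram_ne (P : Place k L) (ρ : G →* (L ≃ₐ[k] L)) (i : ℕ) (h : ram P ρ i ≠ {1}) :
    ∃ g ∈ ram P ρ i, g ≠ 1 := by
  by_contra hcon
  push Not at hcon
  apply h
  ext g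
  rw [Set.mem_singleton_iff]
  exact ⟨hcon g, fun hg => hg ▸ one_mem_ram P ρ i⟩

theorem mem_ram_zero (P : Place k L) (ρ : G →* (L ≃ₐ[k] L)) (g : G) (h : Fixes P (ρ g)) :
    g ∈ ram P ρ 0 := by
  refine ⟨h, fun u hu hu1 => ?_⟩
  by_cases h0 : ρ g u = u
  · exact Or.inl h0
  right
  have hg : ρ g u ≠ 0 := by simpa using hu
  have hn : -u ≠ 0 := neg_ne_zero.mpr hu
  have h1 : P.ord (-u) = P.ord u := by
    have e1 : -u = algebraMap k L (-1) * u := by simp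
    rw [e1, P.ord_mul _ _ (by simp) hu, P.ord_const _ (by simp), zero_add]
  have h2 := P.ord_add (ρ g u) (-u) hg hn (by
    intro h3
    exact h0 (by rwa [← sub_eq_add_neg, sub_eq_zero] at h3))
  rw [h1, h u hu, hu1, ← sub_eq_add_neg] at h2
  simpa using h2

/-- a `p`-group which fixes a place has a conductor there, if some nontrivial element fixes it -/
theorem exists_conductor [Finite G] (hWLD : S_WLD) (hCNV : S_CNV) (p n : ℕ)
    (hp : p.Prime) (hch : CharP k p) (hG : Nat.card G = p ^ n) (P : Place k L)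
    (ρ : G →* (L ≃ₐ[k] L)) (hinj : Function.Injective ρ) (g : G) (hg : g ≠ 1)
    (hfix : Fixes P (ρ g)) : ∃ c : ℚ, IsConductor P ρ c := by
  classical
  have := Fintype.ofFinite G
  obtain ⟨W, I, hW, hI, hWI, ⟨a, ha⟩, m, hm, hIm⟩ := hWLD p k L G P ρ hp hch hinj
  have hm1 : m = 1 := by
    have h1 : Nat.card I ∣ p ^ n := by
      rw [← hG]; exact Subgroup.card_subgroup_dvd_card I
    have h2 : m ∣ p ^ n := (Dvd.intro _ hIm.symm).trans h1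
    obtain ⟨j, _, hj⟩ := (Nat.dvd_prime_pow hp).1 h2
    rcases Nat.eq_zero_or_pos j with rfl | hj0
    · simpa using hj
    · exact absurd (hj ▸ dvd_pow_self p hj0.ne') hm
  have hgI : g ∈ I := by
    have : g ∈ (I : Set G) := by rw [hI]; exact mem_ram_zero P ρ g hfix
    exact this
  have hWeq : W = I := by
    refine Subgroup.eq_of_le_of_card_ge hWI ?_
    rw [hIm, hm1, one_mul]
  have hgW : g ∈ W := by rw [hWeq]; exact hgI
  obtain ⟨g₀, hg₀, hmax⟩ := Set.exists_max_image {x | x ∈ W ∧ x ≠ 1} (fun x => P.b (ρ x))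
    (Set.toFinite _) ⟨g, hgW, hg⟩
  exact ⟨_, hCNV k L G P ρ W I (P.b (ρ g₀)) hinj hW hI
    ⟨⟨g₀, hg₀.1, hg₀.2, rfl⟩, fun x hx hx1 => hmax x ⟨hx, hx1⟩⟩⟩

end

/-- an element of the quotient which fixes the place below lifts to one which fixes the place -/
theorem lift_fixes {k L L₁ G G₁ : Type} [Field k] [Field L] [Field L₁] [Algebra k L]
    [Algebra k L₁] [Group G] [Group G₁] [Finite G] (hTRV : S_TRV) (ρ : G →* (L ≃ₐ[k] L))
    (ρ₁ : G₁ →* (L₁ ≃ₐ[k] L₁)) (π : G →* G₁) (j : L₁ →ₐ[k] L) (hQ : Quo ρ ρ₁ π j)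
    (P : Place k L) (Q : Place k L₁) (e : ℕ)
    (hPQ : ∀ z : L₁, z ≠ 0 → (e : ℤ) * Q.ord z = P.ord (j z)) (g₁ : G₁)
    (hfix : Fixes Q (ρ₁ g₁)) : ∃ g : G, π g = g₁ ∧ Fixes P (ρ g) := by
  obtain ⟨g, hg⟩ := hQ.surj g₁
  obtain ⟨c, hc, hcz⟩ := hTRV k L G ρ π.ker P (QU1.tr P (ρ g)) (by
    intro z hz hzC h0
    obtain ⟨y, rfl⟩ := hQ.fix z fun g' hg' => hzC g' (MonoidHom.mem_ker.2 hg')
    have hy : y ≠ 0 := by
      rintro rfl
      exact hz (map_zero j)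
    have h1 := hPQ y hy
    have h2 := hPQ (ρ₁ g₁ y) (by simpa using hy)
    rw [hfix y hy, h1] at h2
    rw [QU1.tr_ord, hQ.eqv, hg, ← h2]
    exact h0)
  refine ⟨g * c⁻¹, ?_, ?_⟩
  · rw [map_mul, map_inv, MonoidHom.mem_ker.1 hc, inv_one, mul_one, hg]
  · intro z hz
    have h1 := hcz (ρ c⁻¹ z) (by simpa using hz)
    rw [QU1.tr_ord, ← AlgEquiv.mul_apply, ← map_mul, ← AlgEquiv.mul_apply, ← map_mul,
      mul_inv_cancel, map_one, AlgEquiv.one_apply] at h1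
    exact h1

/-- the quotient of a cover along a surjection -/
theorem quo_cover {k L G G₁ : Type} [Field k] [IsAlgClosed k] [Field L] [Algebra k L] [Group G]
    [Group G₁] [Finite G] (hQU1 : S_QU1) (ρ : G →* (L ≃ₐ[k] L)) (t : L) (Φ : G →* G₁)
    (hΦ : Function.Surjective Φ) (hcov : IsCover ρ t) :
    ∃ (E : IntermediateField k L) (ρ₁ : G₁ →* (E ≃ₐ[k] E)) (t₁ : E), E.val t₁ = t ∧
      IsCover ρ₁ t₁ ∧ Quo ρ ρ₁ Φ E.val := by
  obtain ⟨E, ρ', t', hE, ht', hρ', hcov'⟩ := hQU1 k L G ρ t Φ.ker hcov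
  let q : G ⧸ Φ.ker ≃* G₁ := QuotientGroup.quotientKerEquivOfSurjective Φ hΦ
  have hq : ∀ g : G, q.symm (Φ g) = (g : G ⧸ Φ.ker) := by
    intro g
    rw [MulEquiv.symm_apply_eq]
    rfl
  let ρ₁ : G₁ →* (E ≃ₐ[k] E) := ρ'.comp q.symm.toMonoidHom
  have hρ₁ : ∀ g : G, ρ₁ (Φ g) = ρ' (g : G ⧸ Φ.ker) := by
    intro g
    change ρ' (q.symm (Φ g)) = _
    rw [hq]
  refine ⟨E, ρ₁, t', ht', ⟨?_, hcov'.trans, ?_, ?_⟩, ⟨hΦ, ?_, ?_⟩⟩
  · exact hcov'.inj.comp q.symm.injective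
  · intro x
    rw [← hcov'.fixed x]
    constructor
    · intro h g
      have := h (q g)
      change ρ' (q.symm (q g)) x = x at this
      rwa [MulEquiv.symm_apply_apply] at this
    · intro h g
      exact h (q.symm g)
  · intro P hP g hg
    have := hcov'.unram P hP (q.symm g) hg
    rwa [map_eq_one_iff _ q.symm.injective] at this
  · intro g y
    rw [hρ₁]
    exact (hρ' g y).symm
  · intro z hz
    exact ⟨⟨z, (hE z).2 fun c hc => hz c (MonoidHom.mem_ker.1 hc)⟩, rfl⟩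

end TWI

open TWI in
theorem twi_thm (hCMA : S_CMA) (hCMU : S_CMU) (hQCC : S_QCC) (hCJC : S_CJC) (hCUQ : S_CUQ)
    (hEXI : S_EXI) (hRSP : S_RSP) (hTRV : S_TRV) (hQU1 : S_QU1) (hCNV : S_CNV)
    (hWLD : S_WLD) : S_TWI := by
  intro p k L₁ L₂ G G₂ _ _ _ _ _ _ _ _ _ _ E M ε ρ₁ ρ₂ x₁ x₂ ι ι₂ A P₂ c₂ hp hch hGp hG₂p
    hE hM hεE hεs hεi hεm hcov₁ hcov₂ hx₁ hx₂ hP₂ hc₂ hlt hN
  obtain ⟨n₁, hn₁⟩ := hGp
  obtain ⟨n₂, hn₂⟩ := hG₂p
  obtain ⟨L, _, _, j₁, j₂, Γ, ρ, hj, hinj, hfixed, hΓ, hQ₁, hQ₂⟩ :=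
    hCMA k L₁ L₂ G G₂ ρ₁ ρ₂ x₁ x₂ ι ι₂ A hcov₁ hcov₂ hx₁ hx₂
  have hjA : ∀ f : Polynomial k, j₁ (Polynomial.aeval x₁ f) = j₂ (Polynomial.aeval x₂ f) := by
    intro f
    rw [← Polynomial.aeval_algHom_apply, ← Polynomial.aeval_algHom_apply, hj]
  have hcov : IsCover ρ (j₁ (Polynomial.aeval x₁ A)) :=
    hCMU k L L₁ L₂ G G₂ ρ₁ ρ₂ _ _ j₁ j₂ Γ ρ hcov₁ hcov₂ (hjA A) hinj hfixed hQ₁ hQ₂
  have hcov2 : IsCover ρ (j₂ (Polynomial.aeval x₂ A)) := by rw [← hjA]; exact hcov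
  -- `ι 1 = 0`
  have hι1 : ι 1 = 0 := by
    have h1 := hx₁ 1
    rw [map_one, AlgEquiv.one_apply] at h1
    have h2 : algebraMap k L₁ (ι 1) = 0 := by
      have := h1.symm
      rwa [add_eq_left] at this
    exact (map_eq_zero_iff _ (algebraMap k L₁).injective).1 h2
  -- all `(1, a)`, `a ∈ M`, are in `Γ`
  have hMΓ : ∀ a ∈ M, ((1, a) : G × G₂) ∈ Γ := by
    let N : Subgroup G₂ :=
      { carrier := {a | a ∈ M ∧ ((1, a) : G × G₂) ∈ Γ}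
        one_mem' := ⟨M.one_mem, Γ.one_mem⟩
        mul_mem' := by
          rintro a b ⟨ha, ha'⟩ ⟨hb, hb'⟩
          refine ⟨M.mul_mem ha hb, ?_⟩
          have := Γ.mul_mem ha' hb'
          rwa [Prod.mk_mul_mk, mul_one] at this
        inv_mem' := by
          rintro a ⟨ha, ha'⟩
          refine ⟨M.inv_mem ha, ?_⟩
          have := Γ.inv_mem ha'
          rwa [Prod.inv_mk, inv_one] at this }
    have hNM : N ≤ M := fun a ha => ha.1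
    by_cases hNe : N = M
    · intro a ha
      rw [← hNe] at ha
      exact ha.2
    exfalso
    obtain ⟨y, f, hy, hyf, hno⟩ := hN N hNM hNe
    obtain ⟨y₁, hy₁⟩ := hQ₁.fix (j₂ y) (by
      intro γ hγ
      have hγ1 : (γ : G × G₂).1 = 1 := hγ
      rw [hQ₂.eqv]
      have h2 : (γ : G × G₂).2 ∈ N := by
        refine ⟨?_, ?_⟩
        · rw [← hM, ← hΓ γ, hγ1, hι1]
        · have : ((1, (γ : G × G₂).2) : G × G₂) = γ := by
            rw [← hγ1]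
          rw [this]
          exact γ.2
      exact congrArg j₂ (hy _ h2))
    have h3 : j₁ (y₁ ^ p - y₁) = j₁ (Polynomial.aeval x₁ f) := by
      rw [map_sub, map_pow, ← hy₁, hjA, ← hyf, map_sub, map_pow]
    exact hno y₁ (j₁.toRingHom.injective h3)
  -- the homomorphism `Φ`
  let Φ : Γ →* G := MonoidHom.mk' (fun γ => ε (γ : G × G₂).2 * (γ : G × G₂).1) (by
    intro γ γ'
    have h1 := hεm (γ : G × G₂).1 (γ : G × G₂).2 (γ' : G × G₂).2 (hΓ γ)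
    change ε ((γ : G × G₂).2 * (γ' : G × G₂).2) * ((γ : G × G₂).1 * (γ' : G × G₂).1) = _
    rw [h1]
    group)
  have hΦ : ∀ γ : Γ, Φ γ = ε (γ : G × G₂).2 * (γ : G × G₂).1 := fun γ => rfl
  have hΦE : ∀ e ∈ E, ∃ γ : Γ, Φ γ = e := by
    intro e he
    obtain ⟨a, ha, hae⟩ := hεs e he
    refine ⟨⟨(1, a), hMΓ a ha⟩, ?_⟩
    rw [hΦ, hae]
    exact mul_one e
  have hΦs : Function.Surjective Φ := by
    intro g
    obtain ⟨γ, hγ⟩ := hQ₁.surj g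
    have hγ' : (γ : G × G₂).1 = g := hγ
    obtain ⟨γ', hγ''⟩ := hΦE _ (hεE (γ : G × G₂).2)
    refine ⟨γ'⁻¹ * γ, ?_⟩
    rw [map_mul, map_inv, hγ'', hΦ, hγ', inv_mul_cancel_left]
  -- `Γ` is a `p`-group
  obtain ⟨n, hn⟩ : ∃ n : ℕ, Nat.card Γ = p ^ n := by
    have h1 : Nat.card Γ ∣ p ^ (n₁ + n₂) := by
      rw [pow_add, ← hn₁, ← hn₂, ← Nat.card_prod]
      exact Subgroup.card_subgroup_dvd_card Γ
    obtain ⟨n, _, hn⟩ := (Nat.dvd_prime_pow hp).1 h1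
    exact ⟨n, hn⟩
  -- a place at infinity
  obtain ⟨hfin, hsep⟩ := fin_sep ρ _ hcov
  obtain ⟨P, hP⟩ := hEXI k L _ hcov.trans hfin hsep
  have hP2 : P.ord (j₂ (Polynomial.aeval x₂ A)) < 0 := by rw [← hjA]; exact hP
  have hneg : ∀ (L' : Type) [Field L'] [Algebra k L'] (j : L' →ₐ[k] L) (t' : L')
      (Q : Place k L') (e : ℕ), (∀ z : L', z ≠ 0 → (e : ℤ) * Q.ord z = P.ord (j z)) →
      Transcendental k t' → P.ord (j t') < 0 → Q.ord t' < 0 := by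
    intro L' _ _ j t' Q e hQ ht' hneg
    have ht0 : t' ≠ 0 := by
      rintro rfl
      exact ht' isAlgebraic_zero
    have h1 := hQ t' ht0
    by_contra h2
    push Not at h2
    have h3 : (0 : ℤ) ≤ (e : ℤ) * Q.ord t' := mul_nonneg (Int.natCast_nonneg e) h2
    omega
  -- a nontrivial element of the inertia group
  obtain ⟨e₀, Q₀, he₀, hQ₀⟩ := hRSP k L₂ L j₂ P _ hcov₂.trans
  have hQ₀neg : Q₀.ord (Polynomial.aeval x₂ A) < 0 :=
    hneg L₂ j₂ _ Q₀ e₀ hQ₀ hcov₂.trans hP2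
  obtain ⟨l₀, hl₀, -, -⟩ := hCJC k L₂ G₂ ρ₂ _ P₂ Q₀ c₂ hcov₂ hP₂ hQ₀neg hc₂
  obtain ⟨g₂, hg₂, hg₂1⟩ := exists_of_ram_ne Q₀ ρ₂ l₀ hl₀
  obtain ⟨γ₀, hγ₀, hfix₀⟩ := lift_fixes hTRV ρ ρ₂ _ j₂ hQ₂ P Q₀ e₀ hQ₀ g₂ hg₂.1
  have hγ₀1 : γ₀ ≠ 1 := by
    rintro rfl
    exact hg₂1 (by rw [← hγ₀, map_one])
  obtain ⟨c, hc⟩ := exists_conductor hWLD hCNV p n hp hch hn P ρ hcov.inj γ₀ hγ₀1 hfix₀
  -- the two quotients
  obtain ⟨Q₂, e₂, _, hQ₂o, hle₂, hlast₂⟩ :=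
    hQCC p k L L₂ Γ G₂ ρ ρ₂ _ j₂ _ P c hp hch ⟨n, hn⟩ hcov2 hcov₂ hQ₂ hc
  obtain ⟨Q₁, e₁, _, hQ₁o, hle₁, hlast₁⟩ :=
    hQCC p k L L₁ Γ G ρ ρ₁ _ j₁ _ P c hp hch ⟨n, hn⟩ hcov hcov₁ hQ₁ hc
  have hQ₂neg : Q₂.ord (Polynomial.aeval x₂ A) < 0 :=
    hneg L₂ j₂ _ Q₂ e₂ hQ₂o hcov₂.trans hP2
  have hQ₁neg : Q₁.ord (Polynomial.aeval x₁ A) < 0 :=
    hneg L₁ j₁ _ Q₁ e₁ hQ₁o hcov₁.trans hP
  have hc₂' : IsConductor Q₂ ρ₂ c₂ := hCJC k L₂ G₂ ρ₂ _ P₂ Q₂ c₂ hcov₂ hP₂ hQ₂neg hc₂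
  have hc₂c : c₂ ≤ c := hle₂ c₂ hc₂'
  obtain ⟨l, hl, hl1, -⟩ := id hc
  obtain ⟨γ, hγ, hγ1⟩ := exists_of_ram_ne P ρ l hl
  have hfst : ∀ γ' ∈ ram P ρ l, (γ' : G × G₂).1 = 1 := by
    intro γ' hγ'
    by_contra h1
    have h2 := hlt Q₁ c hQ₁neg (hlast₁ l hl1 ⟨γ', hγ', h1⟩)
    exact absurd h2 (not_lt.2 hc₂c)
  have hγf := hfst γ hγ
  have hγs : (γ : G × G₂).2 ≠ 1 := by
    intro h1
    exact hγ1 (Subtype.ext (Prod.ext hγf h1))
  have hcc₂ : c = c₂ := hCUQ k L₂ G₂ ρ₂ Q₂ c c₂ (hlast₂ l hl1 ⟨γ, hγ, hγs⟩) hc₂'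
  have hΦγ : Φ γ ≠ 1 := by
    intro h1
    rw [hΦ, hγf, mul_one] at h1
    refine hγs (hεi _ ?_ h1)
    rw [← hM, ← hΓ γ, hγf, hι1]
  -- the quotient along `Φ`
  obtain ⟨F, ρF, tF, htF, hcovF, hQF⟩ := quo_cover hQU1 ρ _ Φ hΦs hcov
  have hcovF' : IsCover ρ (F.val tF) := by rw [htF]; exact hcov
  obtain ⟨QF, eF, _, hQFo, -, hlastF⟩ :=
    hQCC p k L F Γ G ρ ρF Φ F.val tF P c hp hch ⟨n, hn⟩ hcovF' hcovF hQF hc
  refine ⟨F, inferInstance, inferInstance, ρF, tF, hcovF, QF, ?_, ?_⟩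
  · exact hneg F F.val tF QF eF hQFo hcovF.trans (by rw [htF]; exact hP)
  · rw [← hcc₂]
    exact hlastF l hl1 ⟨γ, hγ, hΦγ⟩

end Pool.CND
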